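import Pool.Agent.Work.MP_0ba68b_gt.Apx.Ind
import Pool.Agent.Work.MP_0ba68b_gt.Apx.Bridge

/-!
The Euclidean distortion of `V / Γ` is the infimum of the distortions of maps into finite
dimensional Euclidean spaces, whenever `Γ` preserves an affine subspace `o + Wᗮ` on which the
elements of `Γ` acting trivially in the normal directions `W` act cocompactly.
-/

namespace Pool.Agent.Results.MP_0ba68b_gt.Approx

open Pool.Agent.Work.MP_0ba68b_gt

theorem result (V : Type) [NormedAddCommGroup V] [InnerProductSpace ℝ V] [FiniteDimensional ℝ V]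
    (Γ : Subgroup (V ≃ᵢ V)) (_hΓ : ∀ x : V, IsClosed {y | ∃ g ∈ Γ, g x = y})
    (o : V) (W : Submodule ℝ V) (R : ℝ)
    (hA : ∀ g ∈ Γ, ∀ u ∈ Wᗮ, g (o + u) - o ∈ Wᗮ)
    (hc : ∀ u ∈ Wᗮ, ∃ g ∈ Γ, (∀ w ∈ W, g (o + w) = g o + w) ∧ ‖g (o + u) - o‖ ≤ R) :
    c2 Γ = ⨅ (k : ℕ) (f : Orbits Γ → EuclideanSpace ℝ (Fin k)), distortion f := by
  obtain ⟨S, hS, hd⟩ := Apx.exists_agrp Γ o W R hA hc
  refine Apx.c2_eq_of_good Γ o S hd fun α hα hα1 hH => ?_
  have e : Wᗮ ⊔ W = ⊤ := by rw [sup_comm, Submodule.sup_orthogonal_of_hasOrthogonalProjection]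
  rw [← e] at hH ⊢
  exact Apx.good_of_setup hS hα hα1 hH

end Pool.Agent.Results.MP_0ba68b_gt.Approx
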