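import Pool.Agent.Work.MP_0ba68b_gt.BD

/-!
The Euclidean distortion of the quotient of the quaternions by the binary dihedral group of order
`4 n` is `2 n sin (π / (4 n))` for `n ≥ 12`, and it is attained in finite dimension.
-/

open Pool.Agent.Work.MP_0ba68b_gt

namespace Pool.Agent.Results.MP_0ba68b_gt.BinaryDihedral

theorem result (n : ℕ) (hn : 12 ≤ n) :
    c2 (BD n) = ENNReal.ofReal (2 * n * Real.sin (Real.pi / (4 * n))) ∧
      ∃ (k : ℕ) (f : Orbits (BD n) → EuclideanSpace ℝ (Fin k)), distortion f = c2 (BD n) :=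
  BD_main hn

end Pool.Agent.Results.MP_0ba68b_gt.BinaryDihedral
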