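import Pool.Agent.Work.MP_0ba68b_gt.CX.Final

/-!
There are a finite dimensional Euclidean space `V` and a group `Γ` of isometries with closed orbits
such that every map of `V / Γ` into a finite dimensional Euclidean space has distortion strictly
larger than the Euclidean distortion of `V / Γ`.
-/

namespace Pool.Agent.Results.MP_0ba68b_gt.Counter

open Pool.Agent.Work.MP_0ba68b_gt

theorem result : ¬ ∀ (V : Type) [NormedAddCommGroup V] [InnerProductSpace ℝ V]
    [FiniteDimensional ℝ V] (Γ : Subgroup (V ≃ᵢ V)),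
    (∀ x : V, IsClosed {y | ∃ g ∈ Γ, g x = y}) →
      ∃ (k : ℕ) (f : Orbits Γ → EuclideanSpace ℝ (Fin k)), distortion f = c2 Γ := by
  intro h
  obtain ⟨Γ, h1, h2⟩ := CX.counter
  obtain ⟨k, f, hf⟩ := h CX.VV Γ h1
  exact (h2 k f).ne' hf

end Pool.Agent.Results.MP_0ba68b_gt.Counter
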